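import Pool.Agent.U108.DP.N1

set_option autoImplicit false

/-! From the theorems on thin families to all integers near the values of polynomials at integers with restricted
digits. -/

namespace Pool.Agent.U108.DP
open Finset
open Pool.Agent.TH212.EH (En)

theorem hyp1 (b r B : ℕ) (hb : 2 ≤ b) : ∃ h k₀ : ℕ, 1 ≤ h ∧ ∀ k : ℕ, k₀ ≤ k →
    ((k : ℝ) ≤ Real.log ((b ^ ((r + 2) * k) : ℕ) : ℝ) ∧ Real.log ((b ^ ((r + 2) * k) : ℕ) : ℝ) ≤ (k : ℝ) ^ 2 ∧ k ≤ b ^ ((r + 2) * k)) ∧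
    ∀ (J : Type) [Fintype J] [DecidableEq J] (D : J → ℕ → Finset ℕ),
    (∀ j, ∀ i < k, D j i ⊆ range b ∧ 2 ≤ (D j i).card) → ∀ F : MvPolynomial J ℤ, F.totalDegree ≤ r + 2 →
    ∀ m : J →₀ ℕ, m.degree = r + 2 → F.coeff m ≠ 0 → |F.coeff m| ≤ (k : ℤ) ^ B →
    (En h (fun n : {n : J → ℕ // n ∈ Bo b k D} => val F n) : ℝ) * ((b ^ ((r + 2) * k) : ℕ) : ℝ) ≤
      Real.log ((b ^ ((r + 2) * k) : ℕ) : ℝ) ^ (2 * B + 1) * (Fintype.card {n : J → ℕ // n ∈ Bo b k D} : ℝ) ^ (2 * h) := by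
  obtain ⟨p, K, hp, hK, hE⟩ := poly_energy b r hb
  obtain ⟨k₁, h1⟩ := Nk_log b r 0 hb
  obtain ⟨k₂, h2⟩ := exists_nat_ge K
  have hN : ∀ k, Nk b r 0 k = b ^ ((r + 2) * k) := fun k => by unfold Nk; rw [pow_zero, one_mul]
  refine ⟨p, k₁ + k₂ + 1, hp, fun k hk => ?_⟩
  have h4 := h1 k (by omega)
  rw [hN] at h4
  refine ⟨h4, ?_⟩
  obtain ⟨hl1, hl2, _⟩ := h4
  intro J _ _ D hD F hF m hm hcm hcB
  have h3 := hE J k D hD F hF m hm hcm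
  obtain ⟨En', hEn'⟩ : ∃ x : ℝ, x = (En p (fun n : {n : J → ℕ // n ∈ Bo b k D} => MvPolynomial.eval (fun j => ((n : J → ℕ) j : ℤ)) F) : ℝ) := ⟨_, rfl⟩
  have hEn2 : (En p (fun n : {n : J → ℕ // n ∈ Bo b k D} => val F n) : ℝ) = En' := hEn'.symm
  obtain ⟨Y, hY⟩ : ∃ x : ℝ, x = (Fintype.card {n : J → ℕ // n ∈ Bo b k D} : ℝ) ^ (2 * p) := ⟨_, rfl⟩
  have hY0 : 0 ≤ Y := by rw [hY]; positivity
  rw [← hEn', ← hY] at h3
  rw [hEn2, ← hY]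
  have hk0 : (1 : ℝ) ≤ k := by exact_mod_cast (by omega : 1 ≤ k)
  have hkK : K ≤ k := h2.trans (by exact_mod_cast (by omega : k₂ ≤ k))
  obtain ⟨cm, hcmd⟩ : ∃ cm : ℤ, cm = F.coeff m := ⟨_, rfl⟩
  rw [← hcmd] at h3 hcB
  have hcr : ((|cm| : ℤ) : ℝ) ≤ (k : ℝ) ^ B := by exact_mod_cast hcB
  refine h3.trans ?_
  have h4 : K * ((|cm| : ℤ) : ℝ) ≤ k * (k : ℝ) ^ B := mul_le_mul hkK hcr (by positivity) (by positivity)
  calc K * |cm| * Y ≤ k * (k : ℝ) ^ B * Y := mul_le_mul_of_nonneg_right h4 hY0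
    _ = (k : ℝ) ^ (B + 1) * Y := by ring
    _ ≤ (k : ℝ) ^ (2 * B + 1) * Y := mul_le_mul_of_nonneg_right (pow_le_pow_right₀ hk0 (by omega)) hY0
    _ ≤ _ := mul_le_mul_of_nonneg_right (pow_le_pow_left₀ (by linarith) hl1 _) hY0

lemma pow_small' (b r W : ℕ) (hb : 2 ≤ b) : ∃ k₀ : ℕ, ∀ k : ℕ, k₀ ≤ k → k ^ W ≤ b ^ ((r + 2) * k) := by
  have hb1 : (1 : ℝ) < (b : ℝ) := by exact_mod_cast (by omega : 1 < b)
  have h2 := tendsto_pow_const_div_const_pow_of_one_lt W (r := (b : ℝ)) hb1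
  have h3 := h2.eventually (gt_mem_nhds (show (0 : ℝ) < 1 by norm_num))
  rw [Filter.eventually_atTop] at h3
  obtain ⟨k₀, h4⟩ := h3
  refine ⟨k₀, fun k hk => ?_⟩
  have h5 := h4 k hk
  rw [div_lt_one (by positivity)] at h5
  have h6 : k ^ W < b ^ k := by exact_mod_cast h5
  exact h6.le.trans (Nat.pow_le_pow_right (by omega) (by nlinarith))

/-- the general principle -/
theorem near_any (b r B B' W U : ℕ) (hb : 2 ≤ b) (P : ℕ → ℤ → Prop)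
    (H : ∀ h C U : ℕ, 1 ≤ h → ∃ N₀ : ℕ, ∀ N : ℕ, N₀ ≤ N → ∀ (ι : Type) [Fintype ι] (v : ι → ℤ),
      (∀ i, |v i| ≤ (B' + 1 : ℕ) * N) → (En h v : ℝ) * N ≤ Real.log N ^ C * (Fintype.card ι : ℝ) ^ (2 * h) →
      ∀ S : Finset ι, (∀ i ∈ S, ¬ P N (v i)) → (S.card : ℝ) ≤ Fintype.card ι / Real.log N ^ U) :
    ∃ k₀ : ℕ, ∀ k : ℕ, k₀ ≤ k → ∀ (J : Type) [Fintype J] [DecidableEq J] (D : J → ℕ → Finset ℕ),
      (∀ j, ∀ i < k, D j i ⊆ range b ∧ 2 ≤ (D j i).card) → ∀ F : MvPolynomial J ℤ, F.totalDegree ≤ r + 2 →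
      (∃ m : J →₀ ℕ, m.degree = r + 2 ∧ F.coeff m ≠ 0 ∧ |F.coeff m| ≤ (k : ℤ) ^ B) →
      (∀ n ∈ Bo b k D, |val F n| ≤ B' * (b : ℤ) ^ ((r + 2) * k)) →
      ∀ Q : (J → ℕ) → Prop, [DecidablePred Q] →
      (∀ n, Q n → ∃ c : ℤ, |c - val F n| ≤ (k : ℤ) ^ W ∧ ¬ P (b ^ ((r + 2) * k)) c) →
      (((Bo b k D).filter Q).card : ℝ) ≤ (Bo b k D).card / (k : ℝ) ^ U := by
  classical
  obtain ⟨h, k₁, hh, hhyp⟩ := hyp1 b r B hb
  obtain ⟨N₀, hN₀⟩ := H h (2 * B + 1) (U + W + 1) hh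
  obtain ⟨k₂, hk₂⟩ := pow_small' b r W hb
  refine ⟨k₁ + N₀ + k₂ + 3, fun k hk J _ _ D hD F hF hm hval Q _ hQ => ?_⟩
  obtain ⟨m, hm1, hm2, hm3⟩ := hm
  obtain ⟨⟨hl1, hl2, hkN⟩, hE⟩ := hhyp k (by omega)
  have hE' := hE J D hD F hF m hm1 hm2 hm3
  obtain ⟨N, hN⟩ : ∃ N, N = b ^ ((r + 2) * k) := ⟨_, rfl⟩
  rw [← hN] at hE' hl1 hl2 hkN hQ
  have hk3 : (3 : ℝ) ≤ k := by exact_mod_cast (by omega : 3 ≤ k)
  have hk0 : (0 : ℝ) < k := by linarith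
  have hkW : ((k ^ W : ℕ) : ℤ) ≤ N := by
    rw [hN]
    exact_mod_cast hk₂ k (by omega)
  have hcard : (Fintype.card {n : J → ℕ // n ∈ Bo b k D} : ℝ) = (Bo b k D).card := by rw [Fintype.card_coe]
  have key : ∀ s : ℤ, |s| ≤ ((k ^ W : ℕ) : ℤ) → (((univ : Finset {n : J → ℕ // n ∈ Bo b k D}).filter (fun n : {n : J → ℕ // n ∈ Bo b k D} => ¬ P N (val F n + s))).card : ℝ) ≤
      (Bo b k D).card / (k : ℝ) ^ (U + W + 1) := by
    intro s hs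
    have h1 := hN₀ N (by omega) {n : J → ℕ // n ∈ Bo b k D} (fun n => val F n + s) (fun n => by
      refine (abs_add_le _ _).trans ?_
      have h2 := hval n n.2
      have h3 : ((b : ℤ) ^ ((r + 2) * k)) = N := by rw [hN]; push_cast; rfl
      rw [h3] at h2
      push_cast
      push_cast at hs hkW
      linarith) (by
      have e : En h (fun n : {n : J → ℕ // n ∈ Bo b k D} => val F n + s) = En h (fun n : {n : J → ℕ // n ∈ Bo b k D} => val F n) :=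
        Pool.Agent.R459.En_shift h (fun n : {n : J → ℕ // n ∈ Bo b k D} => val F n) s
      rw [e]
      exact hE') ((univ : Finset {n : J → ℕ // n ∈ Bo b k D}).filter (fun n : {n : J → ℕ // n ∈ Bo b k D} => ¬ P N (val F n + s)))
      (fun n hn => (mem_filter.1 hn).2)
    refine h1.trans ?_
    rw [hcard]
    exact div_le_div_of_nonneg_left (Nat.cast_nonneg _) (by positivity) (pow_le_pow_left₀ hk0.le hl1 _)
  apply conv (Bo b k D) Q (fun n : {n : J → ℕ // n ∈ Bo b k D} => ∃ c : ℤ, |c - val F n| ≤ (k : ℤ) ^ W ∧ ¬ P N c)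
  · intro n hn
    exact hQ n hn
  · have hsub : ((univ : Finset {n : J → ℕ // n ∈ Bo b k D}).filter (fun n : {n : J → ℕ // n ∈ Bo b k D} => ∃ c : ℤ, |c - val F n| ≤ (k : ℤ) ^ W ∧ ¬ P N c)) ⊆
        (Icc (-((k ^ W : ℕ) : ℤ)) ((k ^ W : ℕ) : ℤ)).biUnion (fun s => (univ : Finset {n : J → ℕ // n ∈ Bo b k D}).filter (fun n : {n : J → ℕ // n ∈ Bo b k D} => ¬ P N (val F n + s))) := by
      intro n hn
      rw [mem_filter] at hn
      obtain ⟨c, hc1, hc2⟩ := hn.2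
      rw [mem_biUnion]
      refine ⟨c - val F n, ?_, ?_⟩
      · rw [mem_Icc]
        have := abs_le.1 hc1
        push_cast
        exact this
      · rw [mem_filter]
        refine ⟨mem_univ _, ?_⟩
        rw [add_sub_cancel]
        exact hc2
    have h1 : (((univ : Finset {n : J → ℕ // n ∈ Bo b k D}).filter (fun n : {n : J → ℕ // n ∈ Bo b k D} => ∃ c : ℤ, |c - val F n| ≤ (k : ℤ) ^ W ∧ ¬ P N c)).card : ℝ) ≤
        ∑ s ∈ Icc (-((k ^ W : ℕ) : ℤ)) ((k ^ W : ℕ) : ℤ), (((univ : Finset {n : J → ℕ // n ∈ Bo b k D}).filter (fun n : {n : J → ℕ // n ∈ Bo b k D} => ¬ P N (val F n + s))).card : ℝ) := by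
      exact_mod_cast (card_le_card hsub).trans card_biUnion_le
    refine h1.trans ((sum_le_sum (g := fun _ => ((Bo b k D).card : ℝ) / (k : ℝ) ^ (U + W + 1)) fun s hs => key s (by
      rw [mem_Icc] at hs
      exact abs_le.2 hs)).trans ?_)
    rw [sum_const, nsmul_eq_mul, Int.card_Icc]
    have h2 : (((((k ^ W : ℕ) : ℤ) + 1 - (-((k ^ W : ℕ) : ℤ))).toNat : ℕ) : ℝ) = 2 * (k : ℝ) ^ W + 1 := by
      have h3 : (((k ^ W : ℕ) : ℤ) + 1 - (-((k ^ W : ℕ) : ℤ))).toNat = 2 * k ^ W + 1 := by omega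
      rw [h3]
      push_cast
      ring
    rw [h2]
    have h3 : (1 : ℝ) ≤ (k : ℝ) ^ W := one_le_pow₀ (by linarith)
    have h4 : 2 * (k : ℝ) ^ W + 1 ≤ (k : ℝ) ^ W * k := by nlinarith
    have h5 : (0 : ℝ) ≤ ((Bo b k D).card : ℝ) := Nat.cast_nonneg _
    calc (2 * (k : ℝ) ^ W + 1) * (((Bo b k D).card : ℝ) / (k : ℝ) ^ (U + W + 1)) ≤
        ((k : ℝ) ^ W * k) * (((Bo b k D).card : ℝ) / (k : ℝ) ^ (U + W + 1)) := mul_le_mul_of_nonneg_right h4 (by positivity)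
      _ = _ := by
        rw [pow_succ, pow_add]
        field_simp

end Pool.Agent.U108.DP
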